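import Pool.Agent.Helper17.GQ.Defs

/-!
# GQ, block Q4 (Loewy): the principal minors of size four

`four`: let `A` and `A'` have the same principal minors, and let all the entries and `2 × 2` minors of `A` off the diagonal be different from
zero. Then the four triples in four indices are all of type I or all of type II.
-/

set_option autoImplicit false

namespace Pool.Agent.GQ

variable {k : Type*} [Field k] {m : ℕ}

private theorem detsub61 {α β : Type*} [Fintype α] [DecidableEq α] (i1 : Fintype β) (i2 : DecidableEq β) (f : α ≃ β)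
    (M : Matrix β β k) : @Matrix.det β i2 i1 k _ M = (M.submatrix f f).det :=
  (Matrix.det_submatrix_equiv_self f M).symm

/-- principal minors -/
theorem dd_one61 {s : ℕ} (A : Matrix (Fin m) (Fin m) k) (e : Fin s → Fin m) (he : Function.Injective e) :
    dd 1 A (Finset.univ.image e) = (A.submatrix e e).det := by
  classical
  set S := Finset.univ.image e with hS
  have h1 : ∀ i, ¬ i ∈ S → ∀ j, j ∈ S → mix 1 A S i j = 0 := by
    intro i hi j hj
    have hij : i ≠ j := fun h => hi (h ▸ hj)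
    unfold mix
    rw [Matrix.of_apply, if_neg hi, Matrix.one_apply_ne hij]
  unfold dd
  rw [Matrix.twoBlockTriangular_det (mix 1 A S) (fun i => i ∈ S) h1]
  have h2 : (mix 1 A S).toSquareBlockProp (fun i => ¬ i ∈ S) = 1 := by
    ext ⟨i, hi⟩ ⟨j, hj⟩
    rw [Matrix.toSquareBlockProp_def]
    show mix 1 A S i j = _
    unfold mix
    rw [Matrix.of_apply, if_neg hi, Matrix.one_apply, Matrix.one_apply]
    simp only [Subtype.mk.injEq]
  rw [h2, Matrix.det_one, mul_one]
  have hmem : ∀ a, e a ∈ S := fun a => Finset.mem_image_of_mem e (Finset.mem_univ a)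
  let f : Fin s ≃ {i // i ∈ S} := Equiv.ofBijective (fun a => ⟨e a, hmem a⟩) (by
    constructor
    · intro a b hab
      exact he (Subtype.mk.inj hab)
    · rintro ⟨i, hi⟩
      obtain ⟨a, _, rfl⟩ := Finset.mem_image.1 hi
      exact ⟨a, rfl⟩)
  have h3 : ((mix 1 A S).toSquareBlockProp (fun i => i ∈ S)).submatrix f f = A.submatrix e e := by
    ext a b
    rw [Matrix.submatrix_apply, Matrix.submatrix_apply, Matrix.toSquareBlockProp_def]
    show mix 1 A S (e a) (e b) = _
    unfold mix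
    rw [Matrix.of_apply, if_pos (hmem a)]
  rw [← h3]
  exact detsub61 _ _ f _

/-- the algebra -/
private theorem core61 (a12 a13 a14 a21 a23 a24 a31 a32 a34 a41 a42 a43 b12 b13 b14 b21 b23 b24 b31 b32 b34 b41 b42 b43 : k)
    (h12 : a12 ≠ 0) (h13 : a13 ≠ 0) (h14 : a14 ≠ 0) (h21 : a21 ≠ 0)
    (h31 : a31 ≠ 0) (h32 : a32 ≠ 0) (h41 : a41 ≠ 0) (h43 : a43 ≠ 0)
    (p12 : b12 * b21 = a12 * a21) (p13 : b13 * b31 = a13 * a31) (p14 : b14 * b41 = a14 * a41)
    (t1 : b12 * b23 * b31 = a12 * a23 * a31) (t2 : b13 * b32 * b21 = a13 * a32 * a21)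
    (t3 : b12 * b24 * b41 = a12 * a24 * a41) (t4 : b14 * b42 * b21 = a14 * a42 * a21)
    (t5 : b13 * b34 * b41 = a14 * a43 * a31) (t6 : b14 * b43 * b31 = a13 * a34 * a41)
    (t7 : b23 * b34 * b42 = a24 * a43 * a32)
    (h4 : b12 * b23 * b34 * b41 + b12 * b24 * b43 * b31 + b13 * b32 * b24 * b41 + b13 * b34 * b42 * b21 +
      b14 * b42 * b23 * b31 + b14 * b43 * b32 * b21 =
      a12 * a23 * a34 * a41 + a12 * a24 * a43 * a31 + a13 * a32 * a24 * a41 + a13 * a34 * a42 * a21 +
      a14 * a42 * a23 * a31 + a14 * a43 * a32 * a21)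
    (hne : a23 * a14 ≠ a24 * a13) :
    (b13 * b34 * b41 = a13 * a34 * a41 ∧ b14 * b43 * b31 = a14 * a43 * a31) ∨
      (a12 * a23 * a31 = a13 * a32 * a21 ∧ a12 * a24 * a41 = a14 * a42 * a21) := by
  have hb12 : b12 ≠ 0 := fun h => mul_ne_zero h12 h21 (by rw [← p12, h, zero_mul])
  have hb13 : b13 ≠ 0 := fun h => mul_ne_zero h13 h31 (by rw [← p13, h, zero_mul])
  have hb14 : b14 ≠ 0 := fun h => mul_ne_zero h14 h41 (by rw [← p14, h, zero_mul])
  obtain ⟨d2, e2⟩ : ∃ d2, d2 = b12 / a12 := ⟨_, rfl⟩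
  obtain ⟨d3, e3⟩ : ∃ d3, d3 = b13 / a13 := ⟨_, rfl⟩
  obtain ⟨d4, e4⟩ : ∃ d4, d4 = b14 / a14 := ⟨_, rfl⟩
  have hd2 : d2 ≠ 0 := by rw [e2]; exact div_ne_zero hb12 h12
  have hd3 : d3 ≠ 0 := by rw [e3]; exact div_ne_zero hb13 h13
  have hd4 : d4 ≠ 0 := by rw [e4]; exact div_ne_zero hb14 h14
  have f12 : b12 = a12 * d2 := by rw [e2]; field_simp
  have f13 : b13 = a13 * d3 := by rw [e3]; field_simp
  have f14 : b14 = a14 * d4 := by rw [e4]; field_simp
  clear e2 e3 e4
  subst f12 f13 f14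
  have f21 : b21 = a21 / d2 := by
    rw [eq_div_iff hd2]
    apply mul_left_cancel₀ h12
    linear_combination p12
  have f31 : b31 = a31 / d3 := by
    rw [eq_div_iff hd3]
    apply mul_left_cancel₀ h13
    linear_combination p13
  have f41 : b41 = a41 / d4 := by
    rw [eq_div_iff hd4]
    apply mul_left_cancel₀ h14
    linear_combination p14
  subst f21 f31 f41
  obtain ⟨lam, hlam⟩ : ∃ lam, lam = a14 * a31 / (a13 * a41) := ⟨_, rfl⟩
  have hl0 : lam ≠ 0 := by
    rw [hlam]
    exact div_ne_zero (mul_ne_zero h14 h31) (mul_ne_zero h13 h41)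
  have hl : lam * (a13 * a41) = a14 * a31 := by
    rw [hlam]
    field_simp
  clear hlam
  have f23 : b23 = a23 * d3 / d2 := by
    field_simp at t1 ⊢
    linear_combination t1
  have f32 : b32 = a32 * d2 / d3 := by
    field_simp at t2 ⊢
    linear_combination t2
  have f24 : b24 = a24 * d4 / d2 := by
    field_simp at t3 ⊢
    linear_combination t3
  have f42 : b42 = a42 * d2 / d4 := by
    field_simp at t4 ⊢
    linear_combination t4
  have f34 : b34 = lam * a43 * d4 / d3 := by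
    rw [eq_div_iff hd3]
    field_simp at t5
    apply mul_left_cancel₀ (mul_ne_zero h13 h41)
    linear_combination t5 - a43 * d4 * hl
  have f43 : b43 = a34 * d3 / (lam * d4) := by
    rw [eq_div_iff (mul_ne_zero hl0 hd4)]
    field_simp at t6
    apply mul_left_cancel₀ (mul_ne_zero h14 h31)
    linear_combination lam * t6 + a34 * d3 * hl
  subst f23 f32 f24 f42 f34 f43
  have star : a14 * a31 * a23 * a42 = a24 * a32 * a13 * a41 := by
    field_simp at t7
    linear_combination (a13 * a41) * t7 - (a23 * a42) * hl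
  have key : (lam * a43 - a34) * (lam * (a12 * a23 * a41 + a13 * a42 * a21) -
      (a12 * a24 * a31 + a14 * a32 * a21)) = 0 := by
    field_simp at h4
    linear_combination h4
  rcases mul_eq_zero.1 key with h | h
  · left
    have h34' : a34 = lam * a43 := by linear_combination -h
    constructor
    · field_simp
      linear_combination -h34'
    · field_simp
      linear_combination h34'
  · right
    have h5 : a12 * a23 * a31 = a13 * a32 * a21 := by
      have h6 : (a23 * a14 - a24 * a13) * (a12 * a23 * a31 - a13 * a32 * a21) = 0 := by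
        apply mul_left_cancel₀ h41
        linear_combination (a13 * a41 * a23) * h - a23 * (a12 * a23 * a41 + a13 * a42 * a21) * hl - (a13 * a21) * star
      rcases mul_eq_zero.1 h6 with h7 | h7
      · exact absurd (sub_eq_zero.1 h7) hne
      · exact sub_eq_zero.1 h7
    refine ⟨h5, ?_⟩
    apply mul_left_cancel₀ (mul_ne_zero h32 h13)
    linear_combination (a14 * a42) * h5 - a12 * star

/-- the type of a triple does not depend on the order -/
private theorem TIrot61 {A A' : Matrix (Fin m) (Fin m) k} {i j l : Fin m} (h : TI A A' i j l) : TI A A' j l i := by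
  unfold TI cyc at *
  exact ⟨by linear_combination h.1, by linear_combination h.2⟩

private theorem TIIrot61 {A A' : Matrix (Fin m) (Fin m) k} {i j l : Fin m} (h : TII A A' i j l) : TII A A' j l i := by
  unfold TII cyc at *
  exact ⟨by linear_combination h.1, by linear_combination h.2⟩

private theorem TIsw61 {A A' : Matrix (Fin m) (Fin m) k} {i j l : Fin m} (h : TI A A' i j l) : TI A A' i l j :=
  ⟨h.2, h.1⟩

private theorem TIIsw61 {A A' : Matrix (Fin m) (Fin m) k} {i j l : Fin m} (h : TII A A' i j l) : TII A A' i l j :=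
  ⟨h.2, h.1⟩

/-- the sum of the cyclic products of size four -/
private def cf61 (A : Matrix (Fin m) (Fin m) k) (i j l p : Fin m) : k :=
  A i j * A j l * A l p * A p i + A i j * A j p * A p l * A l i + A i l * A l j * A j p * A p i +
    A i l * A l p * A p j * A j i + A i p * A p j * A j l * A l i + A i p * A p l * A l j * A j i

private theorem det4_61 (B : Matrix (Fin 4) (Fin 4) k) : B.det =
    B 0 0 * B 1 1 * B 2 2 * B 3 3
    - B 2 2 * B 3 3 * (B 0 1 * B 1 0) - B 1 1 * B 3 3 * (B 0 2 * B 2 0) - B 1 1 * B 2 2 * (B 0 3 * B 3 0)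
    - B 0 0 * B 3 3 * (B 1 2 * B 2 1) - B 0 0 * B 2 2 * (B 1 3 * B 3 1) - B 0 0 * B 1 1 * (B 2 3 * B 3 2)
    + (B 0 1 * B 1 0) * (B 2 3 * B 3 2) + (B 0 2 * B 2 0) * (B 1 3 * B 3 1) + (B 0 3 * B 3 0) * (B 1 2 * B 2 1)
    + B 3 3 * (B 0 1 * B 1 2 * B 2 0 + B 0 2 * B 2 1 * B 1 0)
    + B 2 2 * (B 0 1 * B 1 3 * B 3 0 + B 0 3 * B 3 1 * B 1 0)
    + B 1 1 * (B 0 2 * B 2 3 * B 3 0 + B 0 3 * B 3 2 * B 2 0)
    + B 0 0 * (B 1 2 * B 2 3 * B 3 1 + B 1 3 * B 3 2 * B 2 1)
    - (B 0 1 * B 1 2 * B 2 3 * B 3 0 + B 0 1 * B 1 3 * B 3 2 * B 2 0 + B 0 2 * B 2 1 * B 1 3 * B 3 0 +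
      B 0 2 * B 2 3 * B 3 1 * B 1 0 + B 0 3 * B 3 1 * B 1 2 * B 2 0 + B 0 3 * B 3 2 * B 2 1 * B 1 0) := by
  rw [Matrix.det_succ_row_zero]
  simp only [Fin.sum_univ_four, Matrix.det_fin_three, Matrix.submatrix_apply]
  simp [Fin.succAbove]
  ring

/-- the four triples are of type I -/
private def AI61 (A A' : Matrix (Fin m) (Fin m) k) (i j l p : Fin m) : Prop :=
  TI A A' i j l ∧ TI A A' i j p ∧ TI A A' i l p ∧ TI A A' j l p

/-- the four triples are of type II -/
private def AII61 (A A' : Matrix (Fin m) (Fin m) k) (i j l p : Fin m) : Prop :=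
  TII A A' i j l ∧ TII A A' i j p ∧ TII A A' i l p ∧ TII A A' j l p

private theorem AI1_61 {A A' : Matrix (Fin m) (Fin m) k} {i j l p : Fin m} (h : AI61 A A' j i l p) : AI61 A A' i j l p :=
  ⟨TIsw61 (TIrot61 h.1), TIsw61 (TIrot61 h.2.1), h.2.2.2, h.2.2.1⟩

private theorem AI2_61 {A A' : Matrix (Fin m) (Fin m) k} {i j l p : Fin m} (h : AI61 A A' i l j p) : AI61 A A' i j l p :=
  ⟨TIsw61 h.1, h.2.2.1, h.2.1, TIsw61 (TIrot61 h.2.2.2)⟩

private theorem AI3_61 {A A' : Matrix (Fin m) (Fin m) k} {i j l p : Fin m} (h : AI61 A A' i p j l) : AI61 A A' i j l p :=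
  ⟨h.2.2.1, TIsw61 h.1, TIsw61 h.2.1, TIrot61 h.2.2.2⟩

private theorem AII1_61 {A A' : Matrix (Fin m) (Fin m) k} {i j l p : Fin m} (h : AII61 A A' j i l p) : AII61 A A' i j l p :=
  ⟨TIIsw61 (TIIrot61 h.1), TIIsw61 (TIIrot61 h.2.1), h.2.2.2, h.2.2.1⟩

private theorem AII2_61 {A A' : Matrix (Fin m) (Fin m) k} {i j l p : Fin m} (h : AII61 A A' i l j p) : AII61 A A' i j l p :=
  ⟨TIIsw61 h.1, h.2.2.1, h.2.1, TIIsw61 (TIIrot61 h.2.2.2)⟩

private theorem AII3_61 {A A' : Matrix (Fin m) (Fin m) k} {i j l p : Fin m} (h : AII61 A A' i p j l) : AII61 A A' i j l p :=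
  ⟨h.2.2.1, TIIsw61 h.1, TIIsw61 h.2.1, TIIrot61 h.2.2.2⟩

/-- what is used of `A` and `A'` -/
private structure Hy61 (A A' : Matrix (Fin m) (Fin m) k) : Prop where
  ne : ∀ i j, i ≠ j → A i j ≠ 0
  ne2 : ∀ i j a b, i ≠ j → a ≠ b → i ≠ a → i ≠ b → j ≠ a → j ≠ b → A i a * A j b ≠ A i b * A j a
  two : ∀ i j, i ≠ j → A' i j * A' j i = A i j * A j i
  four : ∀ i j l p, i ≠ j → i ≠ l → i ≠ p → j ≠ l → j ≠ p → l ≠ p → cf61 A' i j l p = cf61 A i j l p

private theorem aux61 {A A' : Matrix (Fin m) (Fin m) k} (H : Hy61 A A') {i j l p : Fin m} (hij : i ≠ j) (hil : i ≠ l)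
    (hip : i ≠ p) (hjl : j ≠ l) (hjp : j ≠ p) (hlp : l ≠ p) (a : TI A A' i j l) (b : TI A A' i j p)
    (c : TII A A' i l p) (d : TI A A' j l p ∨ TII A A' j l p) : TI A A' i l p ∨ AII61 A A' i j l p := by
  rcases d with d | d
  · left
    have n1 := mul_ne_zero (mul_ne_zero (mul_ne_zero (H.ne _ _ hij) (H.ne _ _ hij.symm))
      (mul_ne_zero (H.ne _ _ hjl) (H.ne _ _ hjl.symm))) (mul_ne_zero (H.ne _ _ hjp) (H.ne _ _ hjp.symm))
    have t12 := H.two _ _ hij
    have t23 := H.two _ _ hjl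
    have t24 := H.two _ _ hjp
    obtain ⟨a1, a2⟩ := a
    obtain ⟨b1, b2⟩ := b
    obtain ⟨d1, d2⟩ := d
    unfold cyc at a1 a2 b1 b2 d1 d2
    constructor
    · unfold cyc
      apply mul_left_cancel₀ n1
      calc A i j * A j i * (A j l * A l j) * (A j p * A p j) * (A' i l * A' l p * A' p i)
          = (A' i j * A' j i) * (A' j l * A' l j) * (A' j p * A' p j) * (A' i l * A' l p * A' p i) := by
            rw [t12, t23, t24]
        _ = (A' i l * A' l j * A' j i) * (A' j l * A' l p * A' p j) * (A' i j * A' j p * A' p i) := by ring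
        _ = (A i l * A l j * A j i) * (A j l * A l p * A p j) * (A i j * A j p * A p i) := by rw [a2, d1, b1]
        _ = _ := by ring
    · unfold cyc
      apply mul_left_cancel₀ n1
      calc A i j * A j i * (A j l * A l j) * (A j p * A p j) * (A' i p * A' p l * A' l i)
          = (A' i j * A' j i) * (A' j l * A' l j) * (A' j p * A' p j) * (A' i p * A' p l * A' l i) := by
            rw [t12, t23, t24]
        _ = (A' i j * A' j l * A' l i) * (A' j p * A' p l * A' l j) * (A' i p * A' p j * A' j i) := by ring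
        _ = (A i j * A j l * A l i) * (A j p * A p l * A l j) * (A i p * A p j * A j i) := by rw [a1, d2, b2]
        _ = _ := by ring
  · rcases core61 _ _ _ _ _ _ _ _ _ _ _ _ _ _ _ _ _ _ _ _ _ _ _ _ (H.ne _ _ hij) (H.ne _ _ hil) (H.ne _ _ hip)
        (H.ne _ _ hij.symm) (H.ne _ _ hil.symm) (H.ne _ _ hjl.symm) (H.ne _ _ hip.symm) (H.ne _ _ hlp.symm)
        (H.two _ _ hij) (H.two _ _ hil) (H.two _ _ hip) a.1 a.2 b.1 b.2 c.1 c.2 d.1
        (H.four i j l p hij hil hip hjl hjp hlp) (H.ne2 j i l p hij.symm hlp hjl hjp hil hip) with h | h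
    · exact Or.inl h
    · refine Or.inr ⟨⟨a.1.trans h.1, a.2.trans h.1.symm⟩, ⟨b.1.trans h.2, b.2.trans h.2.symm⟩, c, d⟩

private theorem L61 {A A' : Matrix (Fin m) (Fin m) k} (H : Hy61 A A') {i j l p : Fin m} (hij : i ≠ j) (hil : i ≠ l)
    (hip : i ≠ p) (hjl : j ≠ l) (hjp : j ≠ p) (hlp : l ≠ p) (a : TI A A' i j l) (b : TI A A' i j p)
    (c : TI A A' i l p ∨ TII A A' i l p) (d : TI A A' j l p ∨ TII A A' j l p) : AI61 A A' i j l p ∨ AII61 A A' i j l p := by
  have h1 : TI A A' i l p ∨ AII61 A A' i j l p := by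
    rcases c with c | c
    · exact Or.inl c
    · exact aux61 H hij hil hip hjl hjp hlp a b c d
  rcases h1 with c1 | h1
  swap
  · exact Or.inr h1
  rcases d with d | d
  · exact Or.inl ⟨a, b, c1, d⟩
  · rcases aux61 H hij.symm hjl hjp hil hip hlp (TIsw61 (TIrot61 a)) (TIsw61 (TIrot61 b)) d (Or.inl c1) with d1 | h2
    · exact Or.inl ⟨a, b, c1, d1⟩
    · exact Or.inr (AII1_61 h2)

private theorem TItr61 {A A' : Matrix (Fin m) (Fin m) k} {i j l : Fin m} (h : TII A A' i j l) : TI A.transpose A' i j l := by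
  unfold TII TI cyc at *
  simp only [Matrix.transpose_apply]
  exact ⟨by linear_combination h.1, by linear_combination h.2⟩

private theorem TIItr61 {A A' : Matrix (Fin m) (Fin m) k} {i j l : Fin m} (h : TI A A' i j l) : TII A.transpose A' i j l := by
  unfold TII TI cyc at *
  simp only [Matrix.transpose_apply]
  exact ⟨by linear_combination h.1, by linear_combination h.2⟩

private theorem tr61 {A A' : Matrix (Fin m) (Fin m) k} (H : Hy61 A A') : Hy61 A.transpose A' where
  ne i j hij := H.ne j i hij.symm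
  ne2 i j a b hij hab hia hib hja hjb := by
    simp only [Matrix.transpose_apply]
    have := H.ne2 a b i j hab hij hia.symm hja.symm hib.symm hjb.symm
    intro h
    exact this (by linear_combination h)
  two i j hij := by
    simp only [Matrix.transpose_apply]
    rw [H.two i j hij, mul_comm]
  four i j l p h1 h2 h3 h4 h5 h6 := by
    rw [H.four i j l p h1 h2 h3 h4 h5 h6]
    unfold cf61
    simp only [Matrix.transpose_apply]
    ring

private theorem trtr61 {A A' : Matrix (Fin m) (Fin m) k} {i j l p : Fin m}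
    (h : AI61 A.transpose A' i j l p ∨ AII61 A.transpose A' i j l p) : AI61 A A' i j l p ∨ AII61 A A' i j l p := by
  rcases h with h | h
  · right
    have h1 := fun (a b c : Fin m) (h : TI A.transpose A' a b c) => TIItr61 h
    simp only [Matrix.transpose_transpose] at h1
    exact ⟨h1 _ _ _ h.1, h1 _ _ _ h.2.1, h1 _ _ _ h.2.2.1, h1 _ _ _ h.2.2.2⟩
  · left
    have h1 := fun (a b c : Fin m) (h : TII A.transpose A' a b c) => TItr61 h
    simp only [Matrix.transpose_transpose] at h1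
    exact ⟨h1 _ _ _ h.1, h1 _ _ _ h.2.1, h1 _ _ _ h.2.2.1, h1 _ _ _ h.2.2.2⟩

private theorem LT61 {A A' : Matrix (Fin m) (Fin m) k} (H : Hy61 A A') {i j l p : Fin m} (hij : i ≠ j) (hil : i ≠ l)
    (hip : i ≠ p) (hjl : j ≠ l) (hjp : j ≠ p) (hlp : l ≠ p) (a : TII A A' i j l) (b : TII A A' i j p)
    (c : TI A A' i l p ∨ TII A A' i l p) (d : TI A A' j l p ∨ TII A A' j l p) : AI61 A A' i j l p ∨ AII61 A A' i j l p :=
  trtr61 (L61 (tr61 H) hij hil hip hjl hjp hlp (TItr61 a) (TItr61 b) (c.symm.imp TItr61 TIItr61) (d.symm.imp TItr61 TIItr61))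

/-- Size four: the four triples are all of type I or all of type II. -/
theorem four (A A' : Matrix (Fin m) (Fin m) k) (h : ∀ S, dd 1 A' S = dd 1 A S) (h1 : ∀ i j, i ≠ j → A i j ≠ 0)
    (h2 : ∀ i j a b, i ≠ j → a ≠ b → i ≠ a → i ≠ b → j ≠ a → j ≠ b → A i a * A j b ≠ A i b * A j a)
    (one : ∀ i, A' i i = A i i) (two : ∀ i j, i ≠ j → A' i j * A' j i = A i j * A j i)
    (three : ∀ i j l, i ≠ j → i ≠ l → j ≠ l → TI A A' i j l ∨ TII A A' i j l) :
    ∀ i j l p, i ≠ j → i ≠ l → i ≠ p → j ≠ l → j ≠ p → l ≠ p →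
      (TI A A' i j l ∧ TI A A' i j p ∧ TI A A' i l p ∧ TI A A' j l p) ∨
      (TII A A' i j l ∧ TII A A' i j p ∧ TII A A' i l p ∧ TII A A' j l p) := by
  have s3 : ∀ i j l, i ≠ j → i ≠ l → j ≠ l → A' i j * A' j l * A' l i + A' i l * A' l j * A' j i =
      A i j * A j l * A l i + A i l * A l j * A j i := by
    intro i j l hij hil hjl
    rcases three i j l hij hil hjl with h | h
    · have e1 := h.1
      have e2 := h.2
      unfold cyc at e1 e2
      rw [e1, e2]
    · have e1 := h.1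
      have e2 := h.2
      unfold cyc at e1 e2
      rw [e1, e2, add_comm]
  have hcf : ∀ i j l p, i ≠ j → i ≠ l → i ≠ p → j ≠ l → j ≠ p → l ≠ p → cf61 A' i j l p = cf61 A i j l p := by
    intro i j l p hij hil hip hjl hjp hlp
    have he : Function.Injective ![i, j, l, p] := by
      intro a b hab
      fin_cases a <;> fin_cases b <;> simp_all
    have h3 := h (Finset.univ.image ![i, j, l, p])
    rw [dd_one61 _ _ he, dd_one61 _ _ he, det4_61, det4_61] at h3
    simp only [Matrix.submatrix_apply, Matrix.cons_val_zero, Matrix.cons_val_one, Matrix.cons_val] at h3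
    rw [one i, one j, one l, one p, two i j hij, two i l hil, two i p hip, two j l hjl, two j p hjp, two l p hlp,
      s3 i j l hij hil hjl, s3 i j p hij hip hjp, s3 i l p hil hip hlp, s3 j l p hjl hjp hlp] at h3
    unfold cf61
    linear_combination -h3
  have H : Hy61 A A' := ⟨h1, h2, two, hcf⟩
  intro i j l p hij hil hip hjl hjp hlp
  have c := three i l p hil hip hlp
  have d := three j l p hjl hjp hlp
  rcases three i j l hij hil hjl with a | a <;> rcases three i j p hij hip hjp with b | b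
  · exact L61 H hij hil hip hjl hjp hlp a b c d
  · rcases c with c | c
    · exact (L61 H hil hij hip hjl.symm hlp hjp (TIsw61 a) c (Or.inr b)
        (d.imp (fun h => TIsw61 (TIrot61 h)) fun h => TIIsw61 (TIIrot61 h))).imp AI2_61 AII2_61
    · exact (LT61 H hip hij hil hjp.symm hlp.symm hjl (TIIsw61 b) (TIIsw61 c) (Or.inl a)
        (d.imp (fun h => TIrot61 (TIrot61 h)) fun h => TIIrot61 (TIIrot61 h))).imp AI3_61 AII3_61
  · rcases c with c | c
    · exact (L61 H hip hij hil hjp.symm hlp.symm hjl (TIsw61 b) (TIsw61 c) (Or.inr a)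
        (d.imp (fun h => TIrot61 (TIrot61 h)) fun h => TIIrot61 (TIIrot61 h))).imp AI3_61 AII3_61
    · exact (LT61 H hil hij hip hjl.symm hlp hjp (TIIsw61 a) c (Or.inl b)
        (d.imp (fun h => TIsw61 (TIrot61 h)) fun h => TIIsw61 (TIIrot61 h))).imp AI2_61 AII2_61
  · exact LT61 H hij hil hip hjl hjp hlp a b c d

end Pool.Agent.GQ
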